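import Pool.Agent.H95.FH.Defs

open MvPolynomial

namespace H78.FH

open H95.FG H95.FH

/-- the polynomial of a bilinear form -/
noncomputable def Bp (M : Matrix (Fin 3) (Fin 3) ℂ) : Q3 :=
  ∑ k, ∑ l, C (M k l) * (X (Sum.inl k) * X (Sum.inr l))

theorem eval_Bp (M : Matrix (Fin 3) (Fin 3) ℂ) (z Y : Fin 3 → ℂ) :
    eval (Sum.elim z Y) (Bp M) = bl M z Y := by
  simp only [Bp, bl, map_sum, map_mul, eval_C, eval_X, Sum.elim_inl, Sum.elim_inr]
  refine Finset.sum_congr rfl (fun k _ => Finset.sum_congr rfl (fun l _ => ?_))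
  ring

theorem bl_single (M : Matrix (Fin 3) (Fin 3) ℂ) (k l : Fin 3) :
    bl M (Pi.single k 1) (Pi.single l 1) = M k l := by
  unfold bl
  rw [Finset.sum_eq_single k, Finset.sum_eq_single l]
  · simp
  · intro b _ hb; simp [hb]
  · simp
  · intro b _ hb; simp [hb]
  · simp

theorem hom_Bp (M : Matrix (Fin 3) (Fin 3) ℂ) : (Bp M).IsHomogeneous 2 := by
  unfold Bp
  refine IsHomogeneous.sum _ _ _ (fun k _ => IsHomogeneous.sum _ _ _ (fun l _ => ?_))
  exact ((isHomogeneous_X ℂ (Sum.inl k)).mul (isHomogeneous_X ℂ (Sum.inr l))).C_mul _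

theorem eq_zero_of_Bp {M : Matrix (Fin 3) (Fin 3) ℂ} (h : Bp M = 0) : M = 0 := by
  ext k l
  rw [← bl_single M k l, ← eval_Bp, h]
  simp

theorem Bp_ne_zero {M : Matrix (Fin 3) (Fin 3) ℂ} (h : Rk2 M) : Bp M ≠ 0 := by
  intro h0
  have hM := eq_zero_of_Bp h0
  obtain ⟨z, Y, hzY⟩ := h 0 0
  apply hzY
  subst hM
  simp [bl, dt]

theorem pderiv_of_deg_le_one {σ : Type*} (p : MvPolynomial σ ℂ) (hp : p.totalDegree ≤ 1) (i : σ) :
    pderiv i p = C (coeff (Finsupp.single i 1) p) := by
  classical
  ext m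
  rw [coeff_pderiv, coeff_C]
  by_cases hm : (0 : σ →₀ ℕ) = m
  · subst hm
    simp
  · rw [if_neg hm]
    have h0 : coeff (m + Finsupp.single i 1) p = 0 := by
      apply coeff_eq_zero_of_totalDegree_lt
      have h1 : ∀ d : σ →₀ ℕ, ∑ j ∈ d.support, d j = d.degree := fun d => rfl
      rw [h1, map_add, Finsupp.degree_single]
      have h2 : m.degree ≠ 0 := by
        intro h
        exact hm ((Finsupp.degree_eq_zero_iff m).mp h).symm
      omega
    rw [h0, zero_mul]

theorem pd_inl_inl (M : Matrix (Fin 3) (Fin 3) ℂ) (a b : Fin 3) :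
    pderiv (Sum.inl a) (pderiv (Sum.inl b) (Bp M)) = 0 := by
  classical
  simp [Bp, pderiv_X, Pi.single_apply]

theorem pd_inr_inr (M : Matrix (Fin 3) (Fin 3) ℂ) (a b : Fin 3) :
    pderiv (Sum.inr a) (pderiv (Sum.inr b) (Bp M)) = 0 := by
  classical
  simp [Bp, pderiv_X, Pi.single_apply]

theorem pd_inl_inr (M : Matrix (Fin 3) (Fin 3) ℂ) (a b : Fin 3) :
    pderiv (Sum.inl a) (pderiv (Sum.inr b) (Bp M)) = C (M a b) := by
  classical
  simp [Bp, pderiv_X, Pi.single_apply]

theorem irreducible_Bp {M : Matrix (Fin 3) (Fin 3) ℂ} (hM : Rk2 M) : Irreducible (Bp M) := by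
  have hne := Bp_ne_zero hM
  have htd : (Bp M).totalDegree = 2 := (hom_Bp M).totalDegree hne
  refine ⟨?_, ?_⟩
  · intro hu
    have := (isUnit_iff_totalDegree_of_isReduced.mp hu).2
    omega
  · intro F G hFG
    have hF0 : F ≠ 0 := by rintro rfl; exact hne (by rw [hFG, zero_mul])
    have hG0 : G ≠ 0 := by rintro rfl; exact hne (by rw [hFG, mul_zero])
    have hsum : F.totalDegree + G.totalDegree = 2 := by
      rw [← totalDegree_mul_of_isDomain hF0 hG0, ← hFG, htd]
    have hunit : ∀ P : Q3, P ≠ 0 → P.totalDegree = 0 → IsUnit P := by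
      intro P hP h0
      rw [totalDegree_eq_zero_iff_eq_C] at h0
      rw [h0]
      have hc : coeff 0 P ≠ 0 := by
        intro hc; apply hP; rw [h0, hc, C_0]
      exact (IsUnit.mk0 _ hc).map C
    by_cases hF1 : F.totalDegree = 0
    · left; exact hunit F hF0 hF1
    by_cases hG1 : G.totalDegree = 0
    · right; exact hunit G hG0 hG1
    exfalso
    have hFd := pderiv_of_deg_le_one F (by omega)
    have hGd := pderiv_of_deg_le_one G (by omega)
    have hpd : ∀ i j, pderiv i (pderiv j (Bp M)) =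
        C (coeff (Finsupp.single j 1) F * coeff (Finsupp.single i 1) G +
          coeff (Finsupp.single i 1) F * coeff (Finsupp.single j 1) G) := by
      intro i j
      rw [hFG, pderiv_mul, hFd j, hGd j, map_add, pderiv_mul, pderiv_mul, pderiv_C, pderiv_C,
        hFd i, hGd i]
      simp
    set f : Fin 3 → ℂ := fun k => coeff (Finsupp.single (Sum.inl k) 1) F with hf
    set f' : Fin 3 → ℂ := fun k => coeff (Finsupp.single (Sum.inr k) 1) F with hf'
    set g : Fin 3 → ℂ := fun k => coeff (Finsupp.single (Sum.inl k) 1) G with hg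
    set g' : Fin 3 → ℂ := fun k => coeff (Finsupp.single (Sum.inr k) 1) G with hg'
    have e1 : ∀ a b, f b * g a + f a * g b = 0 := by
      intro a b
      have := hpd (Sum.inl a) (Sum.inl b)
      rw [pd_inl_inl] at this
      exact (C_eq_zero.mp this.symm)
    have e2 : ∀ a b, f' b * g' a + f' a * g' b = 0 := by
      intro a b
      have := hpd (Sum.inr a) (Sum.inr b)
      rw [pd_inr_inr] at this
      exact (C_eq_zero.mp this.symm)
    have e3 : ∀ a b, M a b = f' b * g a + f a * g' b := by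
      intro a b
      have := hpd (Sum.inl a) (Sum.inr b)
      rw [pd_inl_inr] at this
      exact C_injective _ _ this
    have alt : ∀ u v : Fin 3 → ℂ, (∀ a b, u b * v a + u a * v b = 0) → u = 0 ∨ v = 0 := by
      intro u v h
      by_cases hu : u = 0
      · exact Or.inl hu
      · right
        obtain ⟨k, hk⟩ : ∃ k, u k ≠ 0 := by
          by_contra hcon
          push Not at hcon
          exact hu (funext hcon)
        have hvk : v k = 0 := by
          have := h k k
          have h2 : 2 * (u k * v k) = 0 := by linear_combination this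
          rcases mul_eq_zero.mp h2 with h3 | h3
          · norm_num at h3
          · exact (mul_eq_zero.mp h3).resolve_left hk
        funext b
        have := h b k
        rw [hvk, mul_zero, add_zero] at this
        exact (mul_eq_zero.mp this).resolve_left hk
    have rank1 : ∀ u v : Fin 3 → ℂ, (∀ a b, M a b = u a * v b) → False := by
      intro u v h
      obtain ⟨z, Y, hzY⟩ := hM u v
      apply hzY
      unfold bl dt
      rw [Finset.sum_mul_sum]
      refine Finset.sum_congr rfl (fun k _ => Finset.sum_congr rfl (fun l _ => ?_))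
      rw [h]; ring
    rcases alt f g e1 with h1 | h1 <;> rcases alt f' g' e2 with h2 | h2
    · exact rank1 0 0 (fun a b => by rw [e3, h1, h2]; simp)
    · exact rank1 g f' (fun a b => by rw [e3, h1, h2]; simp [mul_comm])
    · exact rank1 f g' (fun a b => by rw [e3, h1, h2]; simp)
    · exact rank1 0 0 (fun a b => by rw [e3, h1, h2]; simp)

theorem step {P N : Matrix (Fin 3) (Fin 3) ℂ} (hP : Bp P ≠ 0) (hN : Bp N ≠ 0)
    (h : Bp P ∣ Bp N) : ∃ a : ℂ, a ≠ 0 ∧ N = a • P := by
  obtain ⟨Q, hQ⟩ := h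
  have hQ0 : Q ≠ 0 := by rintro rfl; exact hN (by rw [hQ, mul_zero])
  have h1 : (Bp N).totalDegree = 2 := (hom_Bp N).totalDegree hN
  have h2 : (Bp P).totalDegree = 2 := (hom_Bp P).totalDegree hP
  have h3 : Q.totalDegree = 0 := by
    have := totalDegree_mul_of_isDomain hP hQ0
    rw [← hQ] at this
    omega
  rw [totalDegree_eq_zero_iff_eq_C] at h3
  refine ⟨coeff 0 Q, ?_, ?_⟩
  · intro hc; apply hQ0; rw [h3, hc, C_0]
  · ext k l
    rw [← bl_single N k l, ← eval_Bp, hQ, h3, map_mul, eval_Bp, bl_single, eval_C]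
    simp [mul_comm]

theorem perm_of_map_eq {n : ℕ} {α : Type*} (f g : Fin n → α)
    (h : (Finset.univ : Finset (Fin n)).val.map f = (Finset.univ : Finset (Fin n)).val.map g) :
    ∃ σ : Equiv.Perm (Fin n), ∀ i, f i = g (σ i) := by
  classical
  have hc : ∀ c, Fintype.card {a // f a = c} = Fintype.card {b // g b = c} := by
    intro c
    have h1 := congrArg (Multiset.count c) h
    rw [Multiset.count_map, Multiset.count_map] at h1
    rw [Fintype.card_subtype, Fintype.card_subtype]
    have e1 : ∀ F : Fin n → α, (Finset.univ.filter fun x => F x = c).card =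
        Multiset.card (Multiset.filter (fun a => c = F a) (Finset.univ : Finset (Fin n)).val) := by
      intro F
      rw [Finset.card_def, Finset.filter_val]
      congr 1
      exact Multiset.filter_congr (fun x _ => eq_comm)
    rw [e1, e1]
    exact h1
  let e : ∀ c, {a // f a = c} ≃ {b // g b = c} := fun c => Fintype.equivOfCardEq (hc c)
  refine ⟨Equiv.ofFiberEquiv e, fun i => ?_⟩
  exact (Equiv.ofFiberEquiv_map e i).symm

theorem t_BF : S_BF := by
  intro N P c hc hP h
  have hirr : ∀ i, Irreducible (Bp (P i)) := fun i => irreducible_Bp (hP i)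
  have hid : ∏ i, Bp (N i) = C c * ∏ i, Bp (P i) := by
    apply MvPolynomial.funext
    intro x
    have hx : x = Sum.elim (fun k => x (Sum.inl k)) (fun k => x (Sum.inr k)) := by
      funext s; cases s <;> rfl
    rw [hx, map_prod, map_mul, map_prod, eval_C]
    simp only [eval_Bp]
    exact h _ _
  have hP0 : ∏ i, Bp (P i) ≠ 0 := Finset.prod_ne_zero_iff.mpr (fun i _ => (hirr i).ne_zero)
  have hC : (C c : Q3) ≠ 0 := by rwa [Ne, C_eq_zero]
  have hN0 : ∏ i, Bp (N i) ≠ 0 := by
    rw [hid]; exact mul_ne_zero hC hP0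
  have hNi : ∀ i, Bp (N i) ≠ 0 := fun i => Finset.prod_ne_zero_iff.mp hN0 i (Finset.mem_univ i)
  have hCu : IsUnit (C c : Q3) := (IsUnit.mk0 c hc).map C
  have hNirr : ∀ i, Irreducible (Bp (N i)) := by
    intro i
    have hnu : ¬ IsUnit (Bp (N i)) := by
      intro hu
      have h1 := (isUnit_iff_totalDegree_of_isReduced.mp hu).2
      have h2 := (hom_Bp (N i)).totalDegree (hNi i)
      omega
    obtain ⟨π, hπ, hπd⟩ := WfDvdMonoid.exists_irreducible_factor hnu (hNi i)
    have hπp : Prime π := hπ.prime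
    have hd : π ∣ C c * ∏ i, Bp (P i) := by
      rw [← hid]
      exact hπd.trans (Finset.dvd_prod_of_mem _ (Finset.mem_univ i))
    have hd2 : π ∣ ∏ i, Bp (P i) := (hCu.dvd_mul_left).mp hd
    obtain ⟨j, -, hj⟩ := (Prime.dvd_finsetProd_iff hπp _).mp hd2
    have hass : Associated π (Bp (P j)) := hπ.associated_of_dvd (hirr j) hj
    have hPN : Bp (P j) ∣ Bp (N i) := hass.dvd_iff_dvd_left.mp hπd
    obtain ⟨a, ha, hNa⟩ := step (hirr j).ne_zero (hNi i) hPN
    have hB : Bp (N i) = C a * Bp (P j) := by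
      rw [hNa]
      simp only [Bp, Finset.mul_sum, Matrix.smul_apply, smul_eq_mul, C_mul]
      refine Finset.sum_congr rfl (fun k _ => Finset.sum_congr rfl (fun l _ => ?_))
      ring
    rw [hB]
    exact (irreducible_isUnit_mul ((IsUnit.mk0 a ha).map C)).mpr (hirr j)
  have hrel : Multiset.Rel Associated
      ((Finset.univ : Finset (Fin 3)).val.map (fun i => Bp (N i)))
      ((Finset.univ : Finset (Fin 3)).val.map (fun i => Bp (P i))) := by
    apply UniqueFactorizationMonoid.factors_unique
    · intro x hx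
      obtain ⟨i, -, rfl⟩ := Multiset.mem_map.mp hx
      exact hNirr i
    · intro x hx
      obtain ⟨i, -, rfl⟩ := Multiset.mem_map.mp hx
      exact hirr i
    · change Associated (∏ i, Bp (N i)) (∏ i, Bp (P i))
      rw [hid]
      exact (associated_unit_mul_left _ _ hCu)
  rw [Associates.rel_associated_iff_map_eq_map, Multiset.map_map, Multiset.map_map] at hrel
  obtain ⟨σ, hσ⟩ := perm_of_map_eq _ _ hrel
  refine ⟨σ, fun i => ?_⟩
  have h1 : Associated (Bp (N i)) (Bp (P (σ i))) := Associates.mk_eq_mk_iff_associated.mp (hσ i)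
  exact step (hirr _).ne_zero (hNi i) h1.symm.dvd

end H78.FH
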