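import Pool.Agent.H95.FH.Defs

open MvPolynomial

namespace H78.FH

open H95.FG H95.FH

/-- reversal -/
theorem rev_rel (q r : Polynomial ℂ) (d : ℕ)
    (h : ∀ s : ℂ, s ≠ 0 → q.eval s = s ^ d * r.eval s⁻¹) :
    q.natDegree ≤ d ∧ q.coeff d = r.eval 0 := by
  have key : Polynomial.X ^ r.natDegree * q = Polynomial.X ^ d * r.reverse := by
    apply Polynomial.eq_of_infinite_eval_eq
    apply Set.Infinite.mono (s := {s : ℂ | s ≠ 0})
    · intro s hs
      have hs' : s ≠ 0 := hs
      change Polynomial.eval s (Polynomial.X ^ r.natDegree * q) =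
        Polynomial.eval s (Polynomial.X ^ d * r.reverse)
      simp only [Polynomial.eval_mul, Polynomial.eval_pow, Polynomial.eval_X]
      rw [h s hs']
      let _ : Invertible s⁻¹ := invertibleOfNonzero (inv_ne_zero hs')
      have h1 := Polynomial.eval₂_reverse_mul_pow (RingHom.id ℂ) s⁻¹ r
      rw [invOf_eq_inv, inv_inv, Polynomial.eval₂_id, Polynomial.eval₂_id] at h1
      rw [← h1]
      have h2 : s ^ r.natDegree * s⁻¹ ^ r.natDegree = 1 := by
        rw [← mul_pow, mul_inv_cancel₀ hs', one_pow]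
      linear_combination (s ^ d * Polynomial.eval s r.reverse) * h2
    · exact (Set.finite_singleton (0 : ℂ)).infinite_compl
  constructor
  · by_cases hq : q = 0
    · subst hq; simp
    have h1 : (Polynomial.X ^ r.natDegree * q).natDegree = r.natDegree + q.natDegree := by
      rw [Polynomial.natDegree_mul (pow_ne_zero _ Polynomial.X_ne_zero) hq,
        Polynomial.natDegree_X_pow]
    have h2 : (Polynomial.X ^ d * r.reverse).natDegree ≤ d + r.natDegree := by
      refine Polynomial.natDegree_mul_le.trans ?_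
      rw [Polynomial.natDegree_X_pow]
      have := r.reverse_natDegree_le
      omega
    rw [key] at h1
    omega
  · have h1 : (Polynomial.X ^ r.natDegree * q).coeff (d + r.natDegree) = q.coeff d :=
      Polynomial.coeff_X_pow_mul _ _ _
    have h2 : (Polynomial.X ^ d * r.reverse).coeff (r.natDegree + d) = r.reverse.coeff r.natDegree :=
      Polynomial.coeff_X_pow_mul _ _ _
    rw [key, add_comm, h2, Polynomial.coeff_reverse, Polynomial.revAt_le le_rfl, Nat.sub_self] at h1
    rw [← h1, Polynomial.coeff_zero_eq_eval_zero]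

/-- a polynomial with only one root -/
theorem one_root (q : Polynomial ℂ) (d : ℕ) (hd1 : 1 ≤ d) (hd : q.natDegree ≤ d)
    (hc : q.coeff d ≠ 0) (hu : ∀ s s', q.eval s = 0 → q.eval s' = 0 → s = s') :
    ∃ s0, q.eval s0 = 0 ∧ q.coeff (d - 1) = -(d * q.coeff d * s0) := by
  have hnd : q.natDegree = d := le_antisymm hd (Polynomial.le_natDegree_of_ne_zero hc)
  have hq0 : q ≠ 0 := by rintro rfl; simp at hc
  obtain ⟨s0, hs0⟩ := IsAlgClosed.exists_root q (by
    rw [Polynomial.degree_eq_natDegree hq0, hnd]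
    exact_mod_cast (by omega : d ≠ 0))
  refine ⟨s0, hs0, ?_⟩
  have hcard : Multiset.card q.roots = q.natDegree :=
    Polynomial.splits_iff_card_roots.mp (IsAlgClosed.splits q)
  have hroots : q.roots = Multiset.replicate d s0 := by
    rw [Multiset.eq_replicate]
    refine ⟨by rw [hcard, hnd], fun b hb => ?_⟩
    exact hu b s0 ((Polynomial.mem_roots hq0).mp hb) hs0
  have hprod := Polynomial.C_leadingCoeff_mul_prod_multiset_X_sub_C hcard
  rw [hroots, Multiset.map_replicate, Multiset.prod_replicate] at hprod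
  have hlead : q.leadingCoeff = q.coeff d := by rw [Polynomial.leadingCoeff, hnd]
  have hcoef : q.coeff (d - 1) = q.coeff d * ((-s0) ^ (d - (d - 1)) * (d.choose (d - 1) : ℂ)) := by
    have := congrArg (fun P => Polynomial.coeff P (d - 1)) hprod
    rw [sub_eq_add_neg, ← Polynomial.C_neg] at this
    simp only [Polynomial.coeff_C_mul, Polynomial.coeff_X_add_C_pow] at this
    rw [← this, hlead]
  rw [hcoef]
  have h1 : d - (d - 1) = 1 := by omega
  have h2 : d.choose (d - 1) = d := by
    rw [← Nat.choose_symm (by omega : d - 1 ≤ d), h1, Nat.choose_one_right]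
  rw [h1, h2]
  ring

/-- vanishing Wronskian -/
theorem wron (F G : Polynomial ℂ) (t1 : ℂ) (hG : G.eval t1 ≠ 0)
    (h : F * Polynomial.derivative G = G * Polynomial.derivative F) :
    F = Polynomial.C (F.eval t1 / G.eval t1) * G := by
  set c := F.eval t1 / G.eval t1 with hc
  set H := F - Polynomial.C c * G with hH
  have hH1 : H.eval t1 = 0 := by
    simp only [hH, Polynomial.eval_sub, Polynomial.eval_mul, Polynomial.eval_C, hc]
    field_simp
    ring
  have hH2 : H * Polynomial.derivative G = G * Polynomial.derivative H := by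
    simp only [hH, Polynomial.derivative_sub, Polynomial.derivative_mul, Polynomial.derivative_C]
    linear_combination h
  have hG0 : G ≠ 0 := by rintro rfl; simp at hG
  have hrG : G.rootMultiplicity t1 = 0 := Polynomial.rootMultiplicity_eq_zero hG
  suffices hHz : H = 0 by
    rw [hH] at hHz
    exact sub_eq_zero.mp hHz
  by_contra hHne
  have hroot : H.IsRoot t1 := hH1
  have hpos : 0 < H.rootMultiplicity t1 := (Polynomial.rootMultiplicity_pos hHne).mpr hroot
  have hdH : Polynomial.derivative H ≠ 0 := by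
    intro h0
    have hn := Polynomial.derivative_eq_zero.mp h0
    rw [Polynomial.eq_C_of_natDegree_eq_zero hn] at hH1 hHne
    simp only [Polynomial.eval_C] at hH1
    rw [hH1] at hHne
    simp at hHne
  have hrH : (Polynomial.derivative H).rootMultiplicity t1 = H.rootMultiplicity t1 - 1 :=
    Polynomial.derivative_rootMultiplicity_of_root hroot
  have hne : G * Polynomial.derivative H ≠ 0 := mul_ne_zero hG0 hdH
  have h1 := Polynomial.rootMultiplicity_mul (x := t1) hne
  have hne2 : H * Polynomial.derivative G ≠ 0 := by rw [hH2]; exact hne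
  have h2 := Polynomial.rootMultiplicity_mul (x := t1) hne2
  rw [hH2, h1, hrG, hrH] at h2
  omega

/-- chain rule -/
theorem chain_rule (Yp : Fin 3 → Polynomial ℂ) (P : MvPolynomial (Fin 3) ℂ) :
    Polynomial.derivative (aeval Yp P) =
      ∑ k, Polynomial.derivative (Yp k) * aeval Yp (pderiv k P) := by
  induction P using MvPolynomial.induction_on with
  | C a => simp
  | add p q hp hq =>
    rw [map_add, map_add, hp, hq, ← Finset.sum_add_distrib]
    refine Finset.sum_congr rfl (fun k _ => ?_)
    rw [map_add, map_add]; ring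
  | mul_X p i hp =>
    rw [map_mul, aeval_X, Polynomial.derivative_mul, hp, Finset.sum_mul]
    have h1 : ∀ k, Polynomial.derivative (Yp k) * aeval Yp (pderiv k (p * X i)) =
        Polynomial.derivative (Yp k) * aeval Yp (pderiv k p) * Yp i +
          (if k = i then aeval Yp p * Polynomial.derivative (Yp i) else 0) := by
      intro k
      rw [pderiv_mul, map_add, map_mul, map_mul, aeval_X]
      by_cases hk : k = i
      · subst hk
        rw [pderiv_X_self, map_one, if_pos rfl]; ring
      · rw [pderiv_X_of_ne (fun h => hk h.symm), map_zero, if_neg hk]; ring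
    simp only [h1, Finset.sum_add_distrib, Finset.sum_ite_eq', Finset.mem_univ, if_true]

theorem eval_aeval (Yp : Fin 3 → Polynomial ℂ) (P : MvPolynomial (Fin 3) ℂ) (t : ℂ) :
    (aeval Yp P).eval t = eval (fun k => (Yp k).eval t) P := by
  have h := MvPolynomial.map_aeval Yp (Polynomial.evalRingHom t) P
  have h2 : (Polynomial.evalRingHom t).comp (algebraMap ℂ (Polynomial ℂ)) = RingHom.id ℂ := by
    ext a; simp
  rw [h2] at h
  exact h

theorem eval_aeval2 (x : Fin 3 ⊕ Fin 3 → Polynomial ℂ) (A : Q3) (t : ℂ) :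
    (aeval x A).eval t = eval (fun k => (x k).eval t) A := by
  have h := MvPolynomial.map_aeval x (Polynomial.evalRingHom t) A
  have h2 : (Polynomial.evalRingHom t).comp (algebraMap ℂ (Polynomial ℂ)) = RingHom.id ℂ := by
    ext a; simp
  rw [h2] at h
  exact h

theorem eval_aeval3 (x : Fin 3 ⊕ Fin 3 → Polynomial (Polynomial ℂ)) (A : Q3) (t s : ℂ) :
    ((aeval x A).map (Polynomial.evalRingHom t)).eval s =
      eval (fun k => ((x k).map (Polynomial.evalRingHom t)).eval s) A := by
  have h := MvPolynomial.map_aeval x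
    ((Polynomial.evalRingHom s).comp (Polynomial.mapRingHom (Polynomial.evalRingHom t))) A
  have h2 : ((Polynomial.evalRingHom s).comp (Polynomial.mapRingHom (Polynomial.evalRingHom t))).comp
      (algebraMap ℂ (Polynomial (Polynomial ℂ))) = RingHom.id ℂ := by
    ext a
    simp [Polynomial.algebraMap_apply]
  rw [h2] at h
  exact h


theorem dt_add' {n : ℕ} (z a b : Fin n → ℂ) : dt z (a + b) = dt z a + dt z b := by
  simp [dt, mul_add, Finset.sum_add_distrib]

theorem dt_sub' {n : ℕ} (z a b : Fin n → ℂ) : dt z (a - b) = dt z a - dt z b := by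
  simp [dt, mul_sub, Finset.sum_sub_distrib]

theorem dt_smul' {n : ℕ} (z a : Fin n → ℂ) (c : ℂ) : dt z (c • a) = c * dt z a := by
  simp only [dt, Pi.smul_apply, smul_eq_mul, Finset.mul_sum]
  exact Finset.sum_congr rfl (fun k _ => by ring)

theorem dt_add_l {n : ℕ} (z a b : Fin n → ℂ) : dt (a + b) z = dt a z + dt b z := by
  simp [dt, add_mul, Finset.sum_add_distrib]

theorem dt_smul_l {n : ℕ} (z a : Fin n → ℂ) (c : ℂ) : dt (c • a) z = c * dt a z := by
  simp only [dt, Pi.smul_apply, smul_eq_mul, Finset.mul_sum]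
  exact Finset.sum_congr rfl (fun k _ => by ring)

theorem dt_zero' {n : ℕ} (z : Fin n → ℂ) : dt z 0 = 0 := by simp [dt]

theorem exists_dt_ne {x : Fin 3 → ℂ} (hx : x ≠ 0) : ∃ w : Fin 3 → ℂ, dt x w ≠ 0 ∧ dt w x ≠ 0 := by
  obtain ⟨k, hk⟩ : ∃ k, x k ≠ 0 := by
    by_contra hcon
    push Not at hcon
    exact hx (funext hcon)
  refine ⟨Pi.single k 1, ?_, ?_⟩
  · simpa [dt, Pi.single_apply] using hk
  · simpa [dt, Pi.single_apply] using hk

theorem not_li {V : Type*} [AddCommGroup V] [Module ℂ V] {x y : V}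
    (h : ¬ LinearIndependent ℂ ![x, y]) : ∃ a b : ℂ, a • x + b • y = 0 ∧ (a ≠ 0 ∨ b ≠ 0) := by
  rw [LinearIndependent.pair_iff] at h
  push Not at h
  obtain ⟨a, b, hab, hne⟩ := h
  refine ⟨a, b, hab, ?_⟩
  by_cases ha : a = 0
  · exact Or.inr (hne ha)
  · exact Or.inl ha

theorem t_I2 (hSWAP : S_SWAP) (hBAS : S_BAS) (hSTAR : S_STAR) : S_I2 := by
  intro m d p A hctx z0 ε hε hall
  obtain ⟨-, hph, -, -, hAY, -, -, hroot⟩ := hBAS m d p A hctx
  obtain ⟨hswctx, -⟩ := hSWAP m d p A hctx
  have hd : 1 ≤ d := by have := hctx.hd; omega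
  have h0 : ‖z0 - z0‖ < ε := by simpa using hε
  obtain ⟨⟨hev0, -, Y0, hY0z, hY0A⟩, hdeg0⟩ := hall z0 h0
  have hz0 : z0 ≠ 0 := by
    intro hz
    apply hev0
    have := hph 0 z0
    rw [zero_smul, zero_pow (by omega), zero_smul] at this
    rw [hz]; exact this
  obtain ⟨Y1, hY1ne, hY1z, hY1A⟩ := hroot z0 hz0
  have hind : ∀ α β : ℂ, α • Y0 + β • Y1 = 0 → α = 0 ∧ β = 0 := by
    intro α β h
    have hα : α = 0 := by
      by_contra hα
      have h1 : Y0 = (-(β / α)) • Y1 := by
        ext k
        have h2 := congrFun h k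
        simp only [Pi.add_apply, Pi.smul_apply, smul_eq_mul, Pi.zero_apply] at h2
        simp only [Pi.smul_apply, smul_eq_mul]
        field_simp
        linear_combination h2
      apply hY0A
      rw [h1, hAY, hY1A, mul_zero]
    subst hα
    rw [zero_smul, zero_add] at h
    exact ⟨rfl, (smul_eq_zero.mp h).resolve_right hY1ne⟩
  obtain ⟨w, hzw, -⟩ := exists_dt_ne hz0
  obtain ⟨v, -, hvY1⟩ := exists_dt_ne hY1ne
  -- the moving frame
  obtain ⟨e, he⟩ : ∃ e : (Fin 3 → ℂ) → (Fin 3 → ℂ), e = fun z => dt z w • Y0 - dt z Y0 • w :=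
    ⟨_, rfl⟩
  obtain ⟨f, hf⟩ : ∃ f : (Fin 3 → ℂ) → (Fin 3 → ℂ), f = fun z => dt z w • Y1 - dt z Y1 • w :=
    ⟨_, rfl⟩
  have hez : ∀ z, dt z (e z) = 0 := by
    intro z; rw [he]; simp only; rw [dt_sub', dt_smul', dt_smul']; ring
  have hfz : ∀ z, dt z (f z) = 0 := by
    intro z; rw [hf]; simp only; rw [dt_sub', dt_smul', dt_smul']; ring
  have hef : ∀ z, dt z w ≠ 0 → ∀ α β : ℂ, α • e z + β • f z = 0 → α = 0 ∧ β = 0 := by
    intro z hz α β h
    have h1 : (dt z w) • (α • Y0 + β • Y1) = (α * dt z Y0 + β * dt z Y1) • w := by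
      rw [he, hf] at h
      ext k
      have h2 := congrFun h k
      simp only [Pi.add_apply, Pi.sub_apply, Pi.smul_apply, smul_eq_mul, Pi.zero_apply] at h2 ⊢
      linear_combination h2
    have h3 := congrArg (dt z0) h1
    rw [dt_smul', dt_add', dt_smul', dt_smul', dt_smul', hY0z, hY1z] at h3
    have h4 : (α * dt z Y0 + β * dt z Y1) * dt z0 w = 0 := by rw [← h3]; ring
    have h5 := (mul_eq_zero.mp h4).resolve_right hzw
    rw [h5, zero_smul] at h1
    exact hind α β ((smul_eq_zero.mp h1).resolve_left hz)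
  -- polynomials along the line
  set zt : ℂ → (Fin 3 → ℂ) := fun t => z0 + t • v with hzt
  set zp : Fin 3 → Polynomial ℂ := fun k => Polynomial.C (z0 k) + Polynomial.C (v k) * Polynomial.X
    with hzp
  set wp : Polynomial ℂ := ∑ i, zp i * Polynomial.C (w i) with hwp
  set ep : Fin 3 → Polynomial ℂ := fun k =>
    wp * Polynomial.C (Y0 k) - (∑ i, zp i * Polynomial.C (Y0 i)) * Polynomial.C (w k) with hep
  set fp : Fin 3 → Polynomial ℂ := fun k =>
    wp * Polynomial.C (Y1 k) - (∑ i, zp i * Polynomial.C (Y1 i)) * Polynomial.C (w k) with hfp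
  have ezp : ∀ t k, (zp k).eval t = zt t k := by
    intro t k
    simp only [hzp, hzt, Polynomial.eval_add, Polynomial.eval_C, Polynomial.eval_mul,
      Polynomial.eval_X, Pi.add_apply, Pi.smul_apply, smul_eq_mul]
    ring
  have esum : ∀ (y : Fin 3 → ℂ) t, (∑ i, zp i * Polynomial.C (y i)).eval t = dt (zt t) y := by
    intro y t
    rw [Polynomial.eval_finsetSum]
    simp only [Polynomial.eval_mul, Polynomial.eval_C, ezp, dt]
  have eep : ∀ t k, (ep k).eval t = e (zt t) k := by
    intro t k
    simp only [hep, hwp, Polynomial.eval_sub, Polynomial.eval_mul, esum, Polynomial.eval_C, he,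
      Pi.sub_apply, Pi.smul_apply, smul_eq_mul]
  have efp : ∀ t k, (fp k).eval t = f (zt t) k := by
    intro t k
    simp only [hfp, hwp, Polynomial.eval_sub, Polynomial.eval_mul, esum, Polynomial.eval_C, hf,
      Pi.sub_apply, Pi.smul_apply, smul_eq_mul]
  obtain ⟨Qp, hQp⟩ : ∃ Qp : Polynomial (Polynomial ℂ), Qp =
    aeval (Sum.elim (fun k => Polynomial.C (zp k))
      (fun k => Polynomial.X * Polynomial.C (ep k) + Polynomial.C (fp k))) A := ⟨_, rfl⟩
  set q : ℂ → Polynomial ℂ := fun t => Qp.map (Polynomial.evalRingHom t) with hq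
  have hqe : ∀ t s, (q t).eval s = AA A (zt t) (s • e (zt t) + f (zt t)) := by
    intro t s
    rw [hq]
    simp only
    rw [hQp, eval_aeval3]
    unfold AA
    refine congrArg (fun g => eval g A) ?_
    ext x
    cases x with
    | inl k =>
      simp [ezp]
    | inr k =>
      simp [eep, efp]; ring
  have hrel : ∀ t, (q t).natDegree ≤ d ∧ (q t).coeff d = AA A (zt t) (e (zt t)) := by
    intro t
    have hr := rev_rel (q t) (aeval (Sum.elim (fun k => Polynomial.C (zt t k))
      (fun k => Polynomial.C (e (zt t) k) + Polynomial.X * Polynomial.C (f (zt t) k))) A) d (by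
        intro s hs
        rw [hqe, eval_aeval2]
        have h1 : s • e (zt t) + f (zt t) = s • (e (zt t) + s⁻¹ • f (zt t)) := by
          rw [smul_add, smul_smul, mul_inv_cancel₀ hs, one_smul]
        rw [h1, hAY]
        congr 1
        unfold AA
        refine congrArg (fun g => eval g A) ?_
        ext x
        cases x with
        | inl k => simp
        | inr k => simp; ring)
    refine ⟨hr.1, hr.2.trans ?_⟩
    rw [eval_aeval2]
    unfold AA
    refine congrArg (fun g => eval g A) ?_
    ext x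
    cases x with
    | inl k => simp
    | inr k => simp
  have hqc : ∀ t k, (q t).coeff k = (Qp.coeff k).eval t := by
    intro t k
    rw [hq]
    simp only
    rw [Polynomial.coeff_map]
    rfl
  set Yp : Fin 3 → Polynomial ℂ := fun k =>
    - Qp.coeff (d - 1) * ep k + Polynomial.C (d : ℂ) * Qp.coeff d * fp k with hYp
  set Yt : ℂ → (Fin 3 → ℂ) := fun t k => (Yp k).eval t with hYt
  have hYt' : ∀ t, Yt t = (-(q t).coeff (d - 1)) • e (zt t) + (d * (q t).coeff d) • f (zt t) := by
    intro t
    funext k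
    simp only [hYt, hYp, Polynomial.eval_add, Polynomial.eval_mul, Polynomial.eval_neg,
      Polynomial.eval_C, eep, efp, hqc, Pi.add_apply, Pi.smul_apply, smul_eq_mul]
  have claim : ∀ t, ‖zt t - z0‖ < ε → (q t).coeff d ≠ 0 → dt (zt t) w ≠ 0 →
      Root A (zt t) (Yt t) := by
    intro t ht hc hw
    have hne : ∀ s : ℂ, s • e (zt t) + f (zt t) ≠ 0 := by
      intro s hs
      have := hef (zt t) hw s 1 (by rw [one_smul]; exact hs)
      exact one_ne_zero this.2
    have hperp : ∀ s : ℂ, dt (zt t) (s • e (zt t) + f (zt t)) = 0 := by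
      intro s
      rw [dt_add', dt_smul', hez, hfz]; ring
    obtain ⟨s0, hs0, hcoef⟩ := one_root (q t) d hd (hrel t).1 hc (by
      intro s s' hs hs'
      rw [hqe] at hs hs'
      obtain ⟨a, b, hab, hne'⟩ := not_li ((hall (zt t) ht).2.1 _ _ ⟨hne s, hperp s, hs⟩
        ⟨hne s', hperp s', hs'⟩)
      have h1 : (a * s + b * s') • e (zt t) + (a + b) • f (zt t) = 0 := by
        rw [← hab]
        ext k
        simp only [Pi.add_apply, Pi.smul_apply, smul_eq_mul]
        ring
      obtain ⟨h2, h3⟩ := hef (zt t) hw _ _ h1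
      have hb : b = -a := by linear_combination h3
      have ha : a ≠ 0 := by
        intro ha
        rcases hne' with h | h
        · exact h ha
        · exact h (by rw [hb, ha, neg_zero])
      rw [hb] at h2
      have h4 : a * (s - s') = 0 := by linear_combination h2
      exact sub_eq_zero.mp ((mul_eq_zero.mp h4).resolve_left ha))
    rw [hqe] at hs0
    have h1 : Yt t = ((d : ℂ) * (q t).coeff d) • (s0 • e (zt t) + f (zt t)) := by
      rw [hYt', hcoef]
      ext k
      simp only [Pi.add_apply, Pi.smul_apply, smul_eq_mul]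
      ring
    have hdc : (d : ℂ) * (q t).coeff d ≠ 0 :=
      mul_ne_zero (by exact_mod_cast (by omega : d ≠ 0)) hc
    rw [h1]
    refine ⟨smul_ne_zero hdc (hne s0), ?_, ?_⟩
    · rw [dt_smul', hperp, mul_zero]
    · rw [hAY, hs0, mul_zero]
  -- the good polynomial
  set D : Polynomial ℂ := Qp.coeff d * wp * (∑ k, Polynomial.C (v k) * Yp k) with hD
  have hDe : ∀ t, D.eval t = (q t).coeff d * dt (zt t) w * dt v (Yt t) := by
    intro t
    have h1 : (∑ k, Polynomial.C (v k) * Yp k).eval t = dt v (Yt t) := by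
      rw [Polynomial.eval_finsetSum]
      simp only [Polynomial.eval_mul, Polynomial.eval_C, dt, hYt]
    rw [hD, Polynomial.eval_mul, Polynomial.eval_mul, h1, ← hqc, hwp, esum]
  have hz00 : zt 0 = z0 := by simp [hzt]
  have hc0 : (q 0).coeff d ≠ 0 := by
    rw [(hrel 0).2, hz00]
    have h1 : e z0 = dt z0 w • Y0 := by
      rw [he]; simp only; rw [hY0z, zero_smul, sub_zero]
    rw [h1, hAY]
    exact mul_ne_zero (pow_ne_zero _ hzw) hY0A
  have hR0 : Root A z0 (Yt 0) := by
    have := claim 0 (by rw [hz00]; exact h0) hc0 (by rw [hz00]; exact hzw)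
    rwa [hz00] at this
  have hv0 : dt v (Yt 0) ≠ 0 := by
    intro hv
    obtain ⟨a, b, hab, hne'⟩ := not_li (hdeg0.1 _ _ hR0 ⟨hY1ne, hY1z, hY1A⟩)
    have h1 := congrArg (dt v) hab
    rw [dt_add', dt_smul', dt_smul', hv, mul_zero, zero_add, dt_zero'] at h1
    have hb := (mul_eq_zero.mp h1).resolve_right hvY1
    rw [hb, zero_smul, add_zero] at hab
    have ha := (smul_eq_zero.mp hab).resolve_right hR0.1
    rcases hne' with h | h
    · exact h ha
    · exact h hb
  have hD0 : D.eval 0 ≠ 0 := by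
    rw [hDe, hz00]
    exact mul_ne_zero (mul_ne_zero hc0 hzw) hv0
  set S : Set ℂ := {t | ‖zt t - z0‖ < ε ∧ D.eval t ≠ 0} with hS
  have hSinf : S.Infinite := by
    apply infinite_of_mem_nhds (0 : ℂ)
    have h1 : ∀ᶠ t in nhds (0 : ℂ), ‖zt t - z0‖ < ε := by
      have hcont : Continuous fun t : ℂ => ‖zt t - z0‖ := by
        rw [hzt]; fun_prop
      refine hcont.continuousAt.eventually_lt continuousAt_const ?_
      rw [hz00]; exact h0
    have h2 : ∀ᶠ t in nhds (0 : ℂ), D.eval t ≠ 0 := D.continuous.continuousAt.eventually_ne hD0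
    exact h1.and h2
  have hSroot : ∀ t ∈ S, Root A (zt t) (Yt t) ∧ dt v (Yt t) ≠ 0 := by
    intro t ht
    have h1 := ht.2
    rw [hDe] at h1
    have h2 := left_ne_zero_of_mul h1
    exact ⟨claim t ht.1 (left_ne_zero_of_mul h2) (right_ne_zero_of_mul h2),
      right_ne_zero_of_mul h1⟩
  have hSev : ∀ t ∈ S, ev (cp p) (Yt t) ≠ 0 := by
    intro t ht
    obtain ⟨⟨h1, h2, -⟩, -⟩ := hSroot t ht
    exact (hall (zt t) ht.1).1.2.1 _ h1 h2
  -- the curve
  set F : Fin m → Polynomial ℂ := fun j => aeval Yp (cp p j) with hF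
  have hFe : ∀ t j, (F j).eval t = ev (cp p) (Yt t) j := by
    intro t j
    rw [hF]
    simp only
    rw [eval_aeval]
    rfl
  have hFd : ∀ t j, (Polynomial.derivative (F j)).eval t =
      dp (cp p) (fun k => (Polynomial.derivative (Yp k)).eval t) (Yt t) j := by
    intro t j
    rw [hF]
    simp only
    rw [chain_rule, Polynomial.eval_finsetSum]
    simp only [Polynomial.eval_mul, eval_aeval]
    rfl
  have hwr : ∀ i j, F i * Polynomial.derivative (F j) = F j * Polynomial.derivative (F i) := by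
    intro i j
    apply Polynomial.eq_of_infinite_eval_eq
    apply hSinf.mono
    intro t ht
    change Polynomial.eval t _ = Polynomial.eval t _
    rw [Polynomial.eval_mul, Polynomial.eval_mul, hFe, hFe, hFd, hFd]
    obtain ⟨a, b, hab, hne'⟩ := not_li ((hall (zt t) ht.1).2.2 _ (hSroot t ht).1
      (fun k => (Polynomial.derivative (Yp k)).eval t))
    have hi := congrFun hab i
    have hj := congrFun hab j
    simp only [Pi.add_apply, Pi.smul_apply, smul_eq_mul, Pi.zero_apply] at hi hj
    rcases hne' with h | h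
    · apply mul_left_cancel₀ h
      linear_combination
        (dp (cp p) (fun k => (Polynomial.derivative (Yp k)).eval t) (Yt t) j) * hi -
        (dp (cp p) (fun k => (Polynomial.derivative (Yp k)).eval t) (Yt t) i) * hj
    · apply mul_left_cancel₀ h
      linear_combination (ev (cp p) (Yt t) i) * hj - (ev (cp p) (Yt t) j) * hi
  obtain ⟨t1, ht1⟩ := hSinf.nonempty
  obtain ⟨j0, hj0⟩ : ∃ j, ev (cp p) (Yt t1) j ≠ 0 := by
    by_contra hcon
    push Not at hcon
    exact hSev t1 ht1 (funext hcon)
  have hprop : ∀ i, F i = Polynomial.C ((F i).eval t1 / (F j0).eval t1) * F j0 := by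
    intro i
    exact wron (F i) (F j0) t1 (by rw [hFe]; exact hj0) (hwr i j0)
  have hval : ∀ t i, ev (cp p) (Yt t) i =
      ev (cp p) (Yt t1) i / ev (cp p) (Yt t1) j0 * ev (cp p) (Yt t) j0 := by
    intro t i
    have := congrArg (Polynomial.eval t) (hprop i)
    rwa [Polynomial.eval_mul, Polynomial.eval_C, hFe, hFe, hFe, hFe] at this
  apply hSev t1 ht1
  apply hSTAR 3 m (cp p) (sw A) hswctx.sys (Yt t1) Yt S hSinf
  · intro σ hσ τ hτ hne
    rw [LinearIndependent.pair_iff]
    intro a b hab
    obtain ⟨⟨hσ1, hσ2, -⟩, hσv⟩ := hSroot σ hσ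
    obtain ⟨⟨hτ1, hτ2, -⟩, hτv⟩ := hSroot τ hτ
    have h1 := congrArg (dt (zt τ)) hab
    rw [dt_add', dt_smul', dt_smul', hτ2, mul_zero, add_zero, dt_zero'] at h1
    have h2 : dt (zt τ) (Yt σ) = (τ - σ) * dt v (Yt σ) := by
      have h3 : zt τ = zt σ + (τ - σ) • v := by
        rw [hzt]; simp only
        rw [add_assoc, ← add_smul]; congr 2; ring
      rw [h3, dt_add_l, hσ2, dt_smul_l, zero_add]
    have h4 : dt (zt τ) (Yt σ) ≠ 0 := by
      rw [h2]
      exact mul_ne_zero (sub_ne_zero.mpr (Ne.symm hne)) hσv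
    have ha := (mul_eq_zero.mp h1).resolve_right h4
    refine ⟨ha, ?_⟩
    rw [ha, zero_smul, zero_add] at hab
    exact (smul_eq_zero.mp hab).resolve_right hτ1
  · intro σ hσ
    refine ⟨ev (cp p) (Yt σ) j0 / ev (cp p) (Yt t1) j0, ?_, ?_⟩
    · apply div_ne_zero _ hj0
      intro h
      apply hSev σ hσ
      funext i
      rw [hval σ i, h, mul_zero]
      rfl
    · funext i
      rw [hval σ i]
      simp only [Pi.smul_apply, smul_eq_mul]
      ring

end H78.FH
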